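import Pool.Agent.H66.L.S8.Y504.CO.Stm5

/-!
Project CO, job K6 (helper333 for helper504): a nonperiodic recurrent point from coded periodic
orbits. Instead of limits of the orbit of a point with Sturmian code, a recurrent point of the skew
product `(z, ς) ↦ (g^τ(ς 0) z, shift ς)` on the set of the points `z` which follow a code `ς` in the
orbit closure of the Sturmian sequence is used.
-/

set_option autoImplicit false

open Filter Set Topology

universe u

namespace Pool.Agent.Y333.CO

open Pool.Agent.TH80.OMS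

/-! ### The Sturmian sequence -/

/-- the slope -/
noncomputable def al : ℝ := √2 - 1

lemma al_pos : 0 < al ∧ al < 1 := by
  have h1 : (1 : ℝ) < √2 := by
    rw [Real.lt_sqrt (by norm_num)]
    norm_num
  have h2 : √2 < 2 := by
    rw [Real.sqrt_lt' (by norm_num)]
    norm_num
  unfold al
  constructor <;> linarith

lemma al_irr (c : ℤ) (l : ℕ) (hl : 1 ≤ l) : (c : ℝ) - l * al ≠ 0 := by
  intro h
  have hl0 : (l : ℝ) ≠ 0 := by
    have : (0 : ℝ) < l := by exact_mod_cast hl
    exact this.ne'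
  refine irrational_sqrt_two ⟨(c / l + 1 : ℚ), ?_⟩
  push_cast
  unfold al at h
  field_simp
  linarith

/-- the Sturmian sequence -/
noncomputable def stu (j : ℕ) : Bool := decide (⌊((j + 1 : ℕ) : ℝ) * al⌋ - ⌊(j : ℝ) * al⌋ = 1)

/-- the number of the letters true -/
def cnt (v : ℕ → Bool) (L : ℕ) : ℤ := ∑ i ∈ Finset.range L, if v i then 1 else 0

lemma stu_val (j : ℕ) : (if stu j then (1 : ℤ) else 0) =
    ⌊((j + 1 : ℕ) : ℝ) * al⌋ - ⌊(j : ℝ) * al⌋ := by
  obtain ⟨h0, h1⟩ := al_pos
  have a1 := Int.floor_le (((j + 1 : ℕ) : ℝ) * al)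
  have a2 := Int.lt_floor_add_one (((j + 1 : ℕ) : ℝ) * al)
  have a3 := Int.floor_le ((j : ℝ) * al)
  have a4 := Int.lt_floor_add_one ((j : ℝ) * al)
  have e : ((j + 1 : ℕ) : ℝ) * al = (j : ℝ) * al + al := by
    push_cast
    ring
  unfold stu
  generalize ⌊((j + 1 : ℕ) : ℝ) * al⌋ = m at *
  generalize ⌊(j : ℝ) * al⌋ = n at *
  have b1 : (-1 : ℝ) < ((m - n : ℤ) : ℝ) := by
    push_cast
    linarith
  have b2 : ((m - n : ℤ) : ℝ) < 2 := by
    push_cast
    linarith
  have c1 : (-1 : ℤ) < m - n := by exact_mod_cast b1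
  have c2 : m - n < 2 := by exact_mod_cast b2
  by_cases h : m - n = 1
  · simp [h]
  · have h2 : m - n = 0 := by omega
    simp [h2]

lemma cnt_stu (s L : ℕ) : cnt (fun i => stu (s + i)) L =
    ⌊((s + L : ℕ) : ℝ) * al⌋ - ⌊(s : ℝ) * al⌋ := by
  unfold cnt
  have h := Finset.sum_range_sub (fun i => ⌊((s + i : ℕ) : ℝ) * al⌋) L
  rw [add_zero] at h
  rw [← h]
  exact Finset.sum_congr rfl fun i _ => stu_val (s + i)

lemma cnt_near (s L : ℕ) : |(cnt (fun i => stu (s + i)) L : ℝ) - L * al| < 1 := by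
  rw [cnt_stu]
  have a1 := Int.floor_le (((s + L : ℕ) : ℝ) * al)
  have a2 := Int.lt_floor_add_one (((s + L : ℕ) : ℝ) * al)
  have a3 := Int.floor_le ((s : ℝ) * al)
  have a4 := Int.lt_floor_add_one ((s : ℝ) * al)
  have e : ((s + L : ℕ) : ℝ) * al = (s : ℝ) * al + L * al := by
    push_cast
    ring
  push_cast at *
  rw [abs_lt]
  constructor <;> linarith

lemma cnt_mul {v : ℕ → Bool} {l : ℕ} (hv : ∀ i, v (i + l) = v i) (M : ℕ) :
    cnt v (M * l) = M * cnt v l := by
  have hM : ∀ M i : ℕ, v (M * l + i) = v i := by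
    intro M
    induction M with
    | zero => intro i; rw [zero_mul, zero_add]
    | succ M ih =>
      intro i
      have e : (M + 1) * l + i = (M * l + i) + l := by ring
      rw [e, hv, ih]
  induction M with
  | zero => simp [cnt]
  | succ M ih =>
    have e : (M + 1) * l = M * l + l := by ring
    have h1 : cnt v (M * l + l) = cnt v (M * l) + cnt v l := by
      unfold cnt
      rw [Finset.sum_range_add]
      congr 1
      exact Finset.sum_congr rfl fun i _ => by rw [hM]
    rw [e, h1, ih]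
    push_cast
    ring

/-- the windows of a periodic sequence do not all occur in the Sturmian sequence -/
lemma not_periodic {v : ℕ → Bool} {l : ℕ} (hl : 1 ≤ l) (hv : ∀ i, v (i + l) = v i)
    (hocc : ∀ L, ∃ s, ∀ i < L, stu (s + i) = v i) : False := by
  have h1 : ∀ L : ℕ, |(cnt v L : ℝ) - L * al| < 1 := by
    intro L
    obtain ⟨s, hs⟩ := hocc L
    have h2 := cnt_near s L
    have h3 : cnt (fun i => stu (s + i)) L = cnt v L :=
      Finset.sum_congr rfl fun i hi => by
        have := hs i (Finset.mem_range.1 hi)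
        simp only [this]
    rwa [h3] at h2
  have h0 : (cnt v l : ℝ) - l * al ≠ 0 := al_irr _ l hl
  have hpos : 0 < |(cnt v l : ℝ) - l * al| := abs_pos.2 h0
  obtain ⟨M, hM⟩ := exists_nat_gt (1 / |(cnt v l : ℝ) - l * al|)
  have h4 := h1 (M * l)
  rw [cnt_mul hv] at h4
  have e : (((M : ℤ) * cnt v l : ℤ) : ℝ) - ((M * l : ℕ) : ℝ) * al =
      M * ((cnt v l : ℝ) - l * al) := by
    push_cast
    ring
  rw [e, abs_mul, Nat.abs_cast] at h4
  rw [div_lt_iff₀ hpos] at hM
  linarith

/-! ### Recurrent points -/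

/-- a recurrent point in a compact forward invariant set -/
lemma exists_rec {Y : Type u} [TopologicalSpace Y] [CompactSpace Y] {G : Y → Y}
    (hG : Continuous G) {C : Set Y} (hC : IsClosed C) (hne : C.Nonempty)
    (hinv : ∀ y ∈ C, G y ∈ C) :
    ∃ y ∈ C, ∀ W ∈ 𝓝 y, ∃ k : ℕ, 1 ≤ k ∧ G^[k] y ∈ W := by
  let S : Set (Set Y) := {D | IsClosed D ∧ D.Nonempty ∧ ∀ y ∈ D, G y ∈ D}
  obtain ⟨M, hMC, hM⟩ := zorn_superset_nonempty S (fun c hc hchain hcne => by
    refine ⟨⋂₀ c, ⟨?_, ?_, ?_⟩, fun s hs => sInter_subset_of_mem hs⟩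
    · exact isClosed_sInter fun s hs => (hc hs).1
    · have hcn : Nonempty c := hcne.to_subtype
      have hdir : DirectedOn (· ⊇ ·) c := fun a ha b hb => by
        rcases hchain.total ha hb with h | h
        · exact ⟨a, ha, subset_rfl, h⟩
        · exact ⟨b, hb, h, subset_rfl⟩
      exact IsCompact.nonempty_sInter_of_directed_nonempty_isCompact_isClosed hdir
        (fun s hs => (hc hs).2.1) (fun s hs => (hc hs).1.isCompact) (fun s hs => (hc hs).1)
    · intro y hy s hs
      exact (hc hs).2.2 y (hy s hs)) C ⟨hC, hne, hinv⟩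
  obtain ⟨hMcl, ⟨y, hy⟩, hMinv⟩ := hM.prop
  refine ⟨y, hMC hy, ?_⟩
  let O : Set Y := {z | ∃ k : ℕ, 1 ≤ k ∧ G^[k] y = z}
  have hOM : O ⊆ M := by
    rintro _ ⟨k, -, rfl⟩
    induction k with
    | zero => exact hy
    | succ k ih =>
      rw [Function.iterate_succ_apply']
      exact hMinv _ ih
  have hOG : ∀ z ∈ O, G z ∈ O := by
    rintro _ ⟨k, hk, rfl⟩
    exact ⟨k + 1, by omega, Function.iterate_succ_apply' G k y⟩
  have hD : closure O ∈ S := by
    refine ⟨isClosed_closure, ⟨G y, subset_closure ⟨1, le_rfl, rfl⟩⟩, fun z hz => ?_⟩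
    exact map_mem_closure hG hz hOG
  have hyD : y ∈ closure O := hM.le_of_le hD (closure_minimal hOM hMcl) hy
  intro W hW
  obtain ⟨z, hzW, k, hk, rfl⟩ := mem_closure_iff_nhds.1 hyD W hW
  exact ⟨k, hk, hzW⟩

/-! ### Codes -/

section

variable {X : Type u}

/-- the point follows the code -/
def Fol (g : X → X) (K : Bool → Set X) (τ : Bool → ℕ) (x : X) (σ : ℕ → Bool) : Prop :=
  ∀ j, g^[∑ i ∈ Finset.range j, τ (σ i)] x ∈ K (σ j)

variable {g : X → X} {K : Bool → Set X} {τ : Bool → ℕ}

lemma Fol.shift {x : X} {σ : ℕ → Bool} (h : Fol g K τ x σ) (l : ℕ) :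
    Fol g K τ (g^[∑ i ∈ Finset.range l, τ (σ i)] x) (fun i => σ (l + i)) := by
  intro j
  rw [← Function.iterate_add_apply, add_comm, ← Finset.sum_range_add (fun i => τ (σ i)) l j]
  exact h (l + j)

lemma Fol.unique (hK : Disjoint (K true) (K false)) {x : X} {σ σ' : ℕ → Bool}
    (h : Fol g K τ x σ) (h' : Fol g K τ x σ') : σ = σ' := by
  have hd : ∀ z b b', z ∈ K b → z ∈ K b' → b = b' := by
    intro z b b' h1 h2
    rw [Set.disjoint_left] at hK
    cases b <;> cases b'
    · rfl
    · exact absurd h1 (hK h2)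
    · exact absurd h2 (hK h1)
    · rfl
  have key : ∀ j, ∀ i ≤ j, σ i = σ' i := by
    intro j
    induction j with
    | zero =>
      intro i hi
      obtain rfl : i = 0 := by omega
      have h1 := h 0
      have h2 := h' 0
      simp only [Finset.range_zero, Finset.sum_empty, Function.iterate_zero, id_eq] at h1 h2
      exact hd _ _ _ h1 h2
    | succ j ih =>
      intro i hi
      rcases Nat.lt_or_ge i (j + 1) with hlt | hge
      · exact ih i (by omega)
      · obtain rfl : i = j + 1 := by omega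
        have h1 := h (j + 1)
        have h2 := h' (j + 1)
        have h3 : ∑ i ∈ Finset.range (j + 1), τ (σ i) = ∑ i ∈ Finset.range (j + 1), τ (σ' i) :=
          Finset.sum_congr rfl fun i hi => by rw [ih i (by have := Finset.mem_range.1 hi; omega)]
        rw [h3] at h1
        exact hd _ _ _ h1 h2
  exact funext fun j => key j j le_rfl

variable [TopologicalSpace X]

lemma cont_step (hg : Continuous g) (j : ℕ) :
    Continuous fun p : X × (ℕ → Bool) => g^[∑ i ∈ Finset.range j, τ (p.2 i)] p.1 := by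
  have h1 : Continuous (fun q : ℕ × X => g^[q.1] q.2) := by
    rw [continuous_prod_of_discrete_left]
    exact fun n => hg.iterate n
  have h2 : Continuous fun p : X × (ℕ → Bool) => ∑ i ∈ Finset.range j, τ (p.2 i) :=
    continuous_finsetSum _ fun i _ =>
      (continuous_of_discreteTopology (f := τ)).comp ((continuous_apply i).comp continuous_snd)
  exact h1.comp (h2.prodMk continuous_fst)

/-- the points which follow a code in the orbit closure of the Sturmian sequence -/
def WW (g : X → X) (K : Bool → Set X) (τ : Bool → ℕ) : Set (X × (ℕ → Bool)) :=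
  {p | Fol g K τ p.1 p.2 ∧ ∀ L, ∃ s, ∀ i < L, stu (s + i) = p.2 i}

lemma WW_closed (hg : Continuous g) (hK : ∀ b, IsClosed (K b)) : IsClosed (WW g K τ) := by
  have h1 : IsClosed {p : X × (ℕ → Bool) | Fol g K τ p.1 p.2} := by
    have e : {p : X × (ℕ → Bool) | Fol g K τ p.1 p.2} =
        ⋂ j, (fun p : X × (ℕ → Bool) => (g^[∑ i ∈ Finset.range j, τ (p.2 i)] p.1, p.2 j)) ⁻¹'
          ((K true ×ˢ {true}) ∪ (K false ×ˢ {false})) := by
      ext p
      simp only [mem_ofPred_eq, mem_iInter, mem_preimage, mem_union, mem_prod, mem_singleton_iff,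
        Fol]
      refine forall_congr' fun j => ?_
      cases p.2 j <;> simp
    rw [e]
    refine isClosed_iInter fun j => IsClosed.preimage ?_ ?_
    · exact (cont_step hg j).prodMk ((continuous_apply j).comp continuous_snd)
    · exact ((hK _).prod isClosed_singleton).union ((hK _).prod isClosed_singleton)
  have h2 : IsClosed {p : X × (ℕ → Bool) | ∀ L, ∃ s, ∀ i < L, stu (s + i) = p.2 i} := by
    have e : {p : X × (ℕ → Bool) | ∀ L, ∃ s, ∀ i < L, stu (s + i) = p.2 i} =
        ⋂ L : ℕ, (fun p : X × (ℕ → Bool) => fun i : Fin L => p.2 i) ⁻¹'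
          {u | ∃ s, ∀ i : Fin L, stu (s + i) = u i} := by
      ext p
      simp only [mem_ofPred_eq, mem_iInter, mem_preimage]
      refine forall_congr' fun L => ⟨?_, ?_⟩
      · rintro ⟨s, hs⟩
        exact ⟨s, fun i => hs i i.2⟩
      · rintro ⟨s, hs⟩
        exact ⟨s, fun i hi => hs ⟨i, hi⟩⟩
    rw [e]
    refine isClosed_iInter fun L => IsClosed.preimage ?_ (isClosed_discrete _)
    exact continuous_pi fun i => (continuous_apply _).comp continuous_snd
  exact h1.inter h2

/-- the skew product -/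
def GG (g : X → X) (τ : Bool → ℕ) (p : X × (ℕ → Bool)) : X × (ℕ → Bool) :=
  (g^[τ (p.2 0)] p.1, fun i => p.2 (i + 1))

lemma GG_cont (hg : Continuous g) : Continuous (GG g τ) := by
  have h1 := cont_step (τ := τ) hg 1
  simp only [Finset.sum_range_one] at h1
  exact h1.prodMk (continuous_pi fun i => (continuous_apply _).comp continuous_snd)

omit [TopologicalSpace X] in
lemma GG_iter (p : X × (ℕ → Bool)) (k : ℕ) :
    (GG g τ)^[k] p = (g^[∑ i ∈ Finset.range k, τ (p.2 i)] p.1, fun i => p.2 (k + i)) := by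
  induction k with
  | zero => simp
  | succ k ih =>
    rw [Function.iterate_succ_apply', ih]
    unfold GG
    refine Prod.ext ?_ ?_
    · change g^[τ (p.2 (k + 0))] (g^[∑ i ∈ Finset.range k, τ (p.2 i)] p.1) = _
      rw [add_zero, ← Function.iterate_add_apply, Finset.sum_range_succ, add_comm]
    · change (fun i => p.2 (k + (i + 1))) = fun i => p.2 (k + 1 + i)
      funext i
      rw [show k + (i + 1) = k + 1 + i by omega]

lemma WW_inv (p : X × (ℕ → Bool)) (hp : p ∈ WW g K τ) : GG g τ p ∈ WW g K τ := by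
  obtain ⟨h1, h2⟩ := hp
  have h3 := h1.shift 1
  have h4 := GG_iter (g := g) (τ := τ) p 1
  rw [Function.iterate_one] at h4
  rw [h4]
  refine ⟨h3, fun L => ?_⟩
  obtain ⟨s, hs⟩ := h2 (L + 1)
  refine ⟨s + 1, fun i hi => ?_⟩
  have h5 := hs (1 + i) (by omega)
  rw [← add_assoc] at h5
  exact h5

end

/-- **(K6)** coded periodic orbits give a nonperiodic recurrent point -/
theorem main : Pool.Agent.Y504.CO.S_K6.{u} := by
  intro X _ _ _ g hg K hK hdisj τ hτ h
  classical
  choose x hxper hxK using h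
  -- a point which follows the Sturmian sequence
  obtain ⟨y, hy⟩ : ∃ y : X, Tendsto (fun q => x q stu) (Filter.hyperfilter ℕ : Filter ℕ) (𝓝 y) := by
    obtain ⟨y, -, hy⟩ := isCompact_univ.ultrafilter_le_nhds
      (Ultrafilter.map (fun q => x q stu) (Filter.hyperfilter ℕ)) (by simp)
    exact ⟨y, hy⟩
  have hfol : Fol g K τ y stu := by
    intro j
    have hcl : IsClosed (g^[∑ i ∈ Finset.range j, τ (stu i)] ⁻¹' K (stu j)) :=
      (hK _).preimage (hg.iterate _)
    refine hcl.mem_of_tendsto hy ?_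
    have h1 : ∀ᶠ q in (Filter.cofinite : Filter ℕ), j < q := by
      rw [Nat.cofinite_eq_atTop]
      exact eventually_gt_atTop j
    exact (h1.filter_mono Filter.hyperfilter_le_cofinite).mono fun q hq => hxK q stu j hq
  -- a recurrent point of the skew product
  obtain ⟨⟨z, ς⟩, ⟨hz1, hz2⟩, hrec⟩ := exists_rec (GG_cont (τ := τ) hg)
    (WW_closed (τ := τ) hg hK) ⟨(y, stu), hfol, fun L => ⟨0, fun i _ => by rw [zero_add]⟩⟩ WW_inv
  change Fol g K τ z ς at hz1
  change ∀ L, ∃ s, ∀ i < L, stu (s + i) = ς i at hz2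
  refine ⟨z, fun W hW => ?_, fun hper => ?_⟩
  · obtain ⟨k, hk, hkW⟩ := hrec (W ×ˢ univ) (prod_mem_nhds hW univ_mem)
    rw [GG_iter] at hkW
    refine ⟨∑ i ∈ Finset.range k, τ (ς i), ?_, hkW.1⟩
    calc 1 ≤ k := hk
      _ = ∑ i ∈ Finset.range k, 1 := by simp
      _ ≤ _ := Finset.sum_le_sum fun i _ => hτ _
  · obtain ⟨P, hP, hPz⟩ := hper
    have hPpos : 0 < P := hP
    obtain ⟨a, b, hab, he⟩ := Finite.exists_ne_map_eq_of_infinite
      (fun j : ℕ => (⟨(∑ i ∈ Finset.range j, τ (ς i)) % P, Nat.mod_lt _ hPpos⟩ : Fin P))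
    have he2 : (∑ i ∈ Finset.range a, τ (ς i)) % P = (∑ i ∈ Finset.range b, τ (ς i)) % P :=
      congrArg Fin.val he
    have hpt : Function.IsPeriodicPt g P z := hPz
    have hgab : g^[∑ i ∈ Finset.range a, τ (ς i)] z = g^[∑ i ∈ Finset.range b, τ (ς i)] z := by
      rw [← hpt.iterate_mod_apply, he2, hpt.iterate_mod_apply]
    have hsh : (fun i => ς (a + i)) = fun i => ς (b + i) := by
      have h1 := hz1.shift a
      rw [hgab] at h1
      exact h1.unique hdisj (hz1.shift b)
    -- the code is periodic from some place on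
    have main2 : ∀ a b : ℕ, a < b → (fun i => ς (a + i)) = (fun i => ς (b + i)) → False := by
      intro a b hab hsh
      refine not_periodic (v := fun i => ς (a + i)) (l := b - a) (by omega) (fun i => ?_)
        (fun L => ?_)
      · have h1 := congrFun hsh i
        change ς (a + i) = ς (b + i) at h1
        change ς (a + (i + (b - a))) = ς (a + i)
        rw [h1]
        congr 1
        omega
      · obtain ⟨s, hs⟩ := hz2 (a + L)
        refine ⟨s + a, fun i hi => ?_⟩
        rw [add_assoc]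
        exact hs (a + i) (by omega)
    rcases Nat.lt_or_gt_of_ne hab with h1 | h1
    · exact main2 a b h1 hsh
    · exact main2 b a h1 hsh.symm

end Pool.Agent.Y333.CO
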